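import Pool.Agent.H87.AN.TargetsC

/-! Row SQ3 of the board allh: a lemma on sequences. -/

set_option autoImplicit false

namespace Pool.Agent.H99.AN

open MeasureTheory Metric Set Filter Topology Pool.Agent.H22.AN
open scoped ENNReal

theorem pf_SQ3 : T_SQ3 := by
  intro H β a b r B B₁ hB hB₁ ha hab hr hH hb hrec N
  obtain ⟨S, hS⟩ : ∃ S, S = ∑ j ∈ Finset.Icc 6 N, H j := ⟨_, rfl⟩
  have hSfin : S ≠ ⊤ := by
    rw [hS]
    refine (ENNReal.sum_lt_top.2 fun j hj => ?_).ne
    exact lt_of_le_of_lt (hH j (Finset.mem_Icc.1 hj).1) ENNReal.ofReal_lt_top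
  have hU : ∀ s t : Finset ℕ, ∑ j ∈ s ∪ t, H j ≤ ∑ j ∈ s, H j + ∑ j ∈ t, H j := by
    intro s t
    rw [← Finset.sum_union_inter]
    exact le_self_add
  obtain ⟨s1, hs1⟩ : ∃ s, s = (Finset.Icc 6 N).filter (fun j => j < a + r + 4) := ⟨_, rfl⟩
  obtain ⟨s3, hs3⟩ : ∃ s, s = (Finset.Icc 6 N).filter (fun j => a + r + 4 ≤ j) := ⟨_, rfl⟩
  have hcov : Finset.Icc 6 N ⊆ s1 ∪ s3 := by
    intro j hj
    simp only [hs1, hs3, Finset.mem_union, Finset.mem_filter, hj, true_and]
    omega
  have hsum : S ≤ ∑ j ∈ s1, H j + ∑ j ∈ s3, H j := by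
    rw [hS]
    exact (Finset.sum_le_sum_of_subset hcov).trans (hU s1 s3)
  have hbd : ∀ (s : Finset ℕ) (k : ℕ), (∀ j ∈ s, 6 ≤ j) → s.card ≤ k →
      ∑ j ∈ s, H j ≤ ENNReal.ofReal (k * B) := by
    intro s k hs hk
    calc ∑ j ∈ s, H j ≤ ∑ _j ∈ s, ENNReal.ofReal B :=
          Finset.sum_le_sum fun j hj => hH j (hs j hj)
      _ = s.card * ENNReal.ofReal B := by rw [Finset.sum_const, nsmul_eq_mul]
      _ ≤ (k : ℝ≥0∞) * ENNReal.ofReal B := by gcongr
      _ = ENNReal.ofReal (k * B) := by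
          rw [ENNReal.ofReal_mul (by positivity), ENNReal.ofReal_natCast]
  have hp1 : ∑ j ∈ s1, H j ≤ ENNReal.ofReal ((a + r : ℕ) * B) := by
    refine hbd s1 (a + r) (fun j hj => ?_) ?_
    · rw [hs1, Finset.mem_filter, Finset.mem_Icc] at hj
      exact hj.1.1
    · have h1 : s1 ⊆ Finset.Ico 6 (a + r + 4) := by
        intro j hj
        rw [hs1, Finset.mem_filter, Finset.mem_Icc] at hj
        rw [Finset.mem_Ico]
        omega
      refine (Finset.card_le_card h1).trans ?_
      rw [Nat.card_Ico]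
      omega
  -- the three shifted sums
  have hsh : ∀ (φ : ℕ → ℕ) (M : ℕ), (∀ i ∈ s3, ∀ j ∈ s3, φ i = φ j → i = j) →
      (∀ i ∈ s3, 6 ≤ φ i ∧ φ i ≤ M) → ∑ i ∈ s3, H (φ i) ≤ ∑ j ∈ Finset.Icc 6 M, H j := by
    intro φ M hφ hm
    rw [← Finset.sum_image (s := s3) (g := φ) (f := H) (fun x hx y hy h => hφ x hx y hy h)]
    refine Finset.sum_le_sum_of_subset fun j hj => ?_
    obtain ⟨i, hi, rfl⟩ := Finset.mem_image.1 hj
    exact Finset.mem_Icc.mpr (hm i hi)
  have hshift1 : ∑ j ∈ s3, H (j - (a + r) + b + r) ≤ S + ENNReal.ofReal ((b - a : ℕ) * B) := by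
    refine (hsh (fun j => j - (a + r) + b + r) (N + (b - a)) ?_ ?_).trans ?_
    · intro i hi j hj h
      rw [hs3, Finset.mem_filter, Finset.mem_Icc] at hi hj
      have h' : i - (a + r) + b + r = j - (a + r) + b + r := h
      omega
    · intro i hi
      rw [hs3, Finset.mem_filter, Finset.mem_Icc] at hi
      show 6 ≤ i - (a + r) + b + r ∧ i - (a + r) + b + r ≤ N + (b - a)
      omega
    · have h1 : Finset.Icc 6 (N + (b - a)) ⊆ Finset.Icc 6 N ∪
          (Finset.Ioc N (N + (b - a))).filter (fun j => 6 ≤ j) := by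
        intro j hj
        rw [Finset.mem_Icc] at hj
        rw [Finset.mem_union, Finset.mem_Icc, Finset.mem_filter, Finset.mem_Ioc]
        omega
      refine ((Finset.sum_le_sum_of_subset h1).trans (hU _ _)).trans ?_
      rw [← hS]
      refine add_le_add le_rfl (hbd _ _ (fun j hj => (Finset.mem_filter.mp hj).2) ?_)
      refine (Finset.card_filter_le _ _).trans ?_
      rw [Nat.card_Ioc]
      omega
  have hshift2 : ∑ j ∈ s3, H (j - (a + r) + r) ≤ S := by
    rw [hS]
    refine hsh (fun j => j - (a + r) + r) N ?_ ?_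
    · intro i hi j hj h
      rw [hs3, Finset.mem_filter, Finset.mem_Icc] at hi hj
      have h' : i - (a + r) + r = j - (a + r) + r := h
      omega
    · intro i hi
      rw [hs3, Finset.mem_filter, Finset.mem_Icc] at hi
      show 6 ≤ i - (a + r) + r ∧ i - (a + r) + r ≤ N
      omega
  have hshift3 : ∑ j ∈ s3, H (j - (a + r) + 3) ≤ S := by
    rw [hS]
    refine hsh (fun j => j - (a + r) + 3) N ?_ ?_
    · intro i hi j hj h
      rw [hs3, Finset.mem_filter, Finset.mem_Icc] at hi hj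
      have h' : i - (a + r) + 3 = j - (a + r) + 3 := h
      omega
    · intro i hi
      rw [hs3, Finset.mem_filter, Finset.mem_Icc] at hi
      show 6 ≤ i - (a + r) + 3 ∧ i - (a + r) + 3 ≤ N
      omega
  have hbs : ∑ j ∈ s3, β (j - (a + r)) ≤ ENNReal.ofReal B₁ := by
    refine le_trans ?_ (hb N)
    rw [← Finset.sum_image (s := s3) (g := fun j => j - (a + r)) (f := β)
      (fun x hx y hy h => by
        have hx' : x ∈ s3 := hx
        have hy' : y ∈ s3 := hy
        rw [hs3, Finset.mem_filter, Finset.mem_Icc] at hx' hy'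
        have h' : x - (a + r) = y - (a + r) := h
        omega)]
    refine Finset.sum_le_sum_of_subset fun j hj => ?_
    obtain ⟨i, hi, rfl⟩ := Finset.mem_image.1 hj
    rw [hs3, Finset.mem_filter, Finset.mem_Icc] at hi
    rw [Finset.mem_Icc]
    omega
  have hgeo : ∑ j ∈ s3, ENNReal.ofReal (B * (1 / 2) ^ (j - (a + r))) ≤ ENNReal.ofReal (2 * B) := by
    rw [← ENNReal.ofReal_sum_of_nonneg (fun j _ => by positivity), ← Finset.mul_sum]
    refine ENNReal.ofReal_le_ofReal ?_
    have h1 : ∑ j ∈ s3, (1 / 2 : ℝ) ^ (j - (a + r)) ≤ 2 := by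
      rw [← Finset.sum_image (s := s3) (g := fun j => j - (a + r))
        (f := fun j => (1 / 2 : ℝ) ^ j) (fun x hx y hy h => by
        have hx' : x ∈ s3 := hx
        have hy' : y ∈ s3 := hy
        rw [hs3, Finset.mem_filter, Finset.mem_Icc] at hx' hy'
        have h' : x - (a + r) = y - (a + r) := h
        omega)]
      have h2 : Summable (fun j : ℕ => (1 / 2 : ℝ) ^ j) := summable_geometric_two
      have h3 := h2.sum_le_tsum (s3.image (fun j => j - (a + r))) (fun j _ => by positivity)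
      rwa [tsum_geometric_two] at h3
    nlinarith
  have hp3 : ∑ j ∈ s3, H j ≤ ENNReal.ofReal B₁ + ENNReal.ofReal (1 / 8) *
      ((S + ENNReal.ofReal ((b - a : ℕ) * B)) + S + S) + ENNReal.ofReal (2 * B) := by
    calc ∑ j ∈ s3, H j ≤ ∑ j ∈ s3, (β (j - (a + r)) + ENNReal.ofReal (1 / 8) *
          (H (j - (a + r) + b + r) + H (j - (a + r) + r) + H (j - (a + r) + 3)) +
          ENNReal.ofReal (B * (1 / 2) ^ (j - (a + r)))) := by
          refine Finset.sum_le_sum fun j hj => ?_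
          rw [hs3, Finset.mem_filter] at hj
          have h1 := hrec (j - (a + r)) (by omega)
          have h2 : j - (a + r) + a + r = j := by omega
          rw [h2] at h1
          exact h1
      _ = ∑ j ∈ s3, β (j - (a + r)) + ENNReal.ofReal (1 / 8) *
          (∑ j ∈ s3, H (j - (a + r) + b + r) + ∑ j ∈ s3, H (j - (a + r) + r) +
          ∑ j ∈ s3, H (j - (a + r) + 3)) +
          ∑ j ∈ s3, ENNReal.ofReal (B * (1 / 2) ^ (j - (a + r))) := by
          rw [Finset.sum_add_distrib, Finset.sum_add_distrib, ← Finset.mul_sum,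
            Finset.sum_add_distrib, Finset.sum_add_distrib]
      _ ≤ _ := by gcongr
  -- conclusion in the reals
  have hfin := hsum.trans (add_le_add hp1 hp3)
  obtain ⟨σ, hσ0, hσ⟩ : ∃ σ : ℝ, 0 ≤ σ ∧ S = ENNReal.ofReal σ :=
    ⟨S.toReal, ENNReal.toReal_nonneg, (ENNReal.ofReal_toReal hSfin).symm⟩
  rw [← hS, hσ]
  refine ENNReal.ofReal_le_ofReal ?_
  have hba : ((b - a : ℕ) : ℝ) = b - a := by
    rw [Nat.cast_sub hab.le]
  have hba0 : (0 : ℝ) ≤ ((b - a : ℕ) : ℝ) * B := by positivity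
  rw [hσ, ← ENNReal.ofReal_add hσ0 hba0, ← ENNReal.ofReal_add (by positivity) hσ0,
    ← ENNReal.ofReal_add (by positivity) hσ0, ← ENNReal.ofReal_mul (by norm_num),
    ← ENNReal.ofReal_add hB₁ (by positivity), ← ENNReal.ofReal_add (by positivity) (by positivity),
    ← ENNReal.ofReal_add (by positivity) (by positivity),
    ENNReal.ofReal_le_ofReal_iff (by positivity), hba] at hfin
  push_cast at hfin
  have ha' : (1 : ℝ) ≤ a := by exact_mod_cast ha
  have hb' : (2 : ℝ) ≤ b := by exact_mod_cast (by omega : 2 ≤ b)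
  have hr' : (3 : ℝ) ≤ r := by exact_mod_cast hr
  have e1 : 0 ≤ (a - 1 : ℝ) * B := mul_nonneg (by linarith) hB
  have e2 : 0 ≤ (b - 2 : ℝ) * B := mul_nonneg (by linarith) hB
  have e3 : 0 ≤ (r - 3 : ℝ) * B := mul_nonneg (by linarith) hB
  nlinarith

end Pool.Agent.H99.AN
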