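import Pool.Agent.H22.AN.TB3
import Pool.Agent.H80.AN.TargetsA

/-! Row LOC of the board allh (MP_2697e3_an): the local inequality in the frame. -/

namespace Pool.Agent.H99.AN

open MeasureTheory Metric Set Filter Topology Pool.Agent.H87.SN Pool.Agent.H87.SH Pool.Agent.H87.AX
  Pool.Agent.H22.AN
open scoped ENNReal

noncomputable section

/-! ### Geometry -/

theorem loc_sum {d : ℕ} (x : V d) : ‖x‖ ^ 2 = x 0 ^ 2 + x 1 ^ 2 + ‖zp x‖ ^ 2 := by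
  rw [EuclideanSpace.norm_sq_eq, EuclideanSpace.norm_sq_eq, Fin.sum_univ_succ, Fin.sum_univ_succ]
  simp only [Real.norm_eq_abs, sq_abs, zp]
  rw [← add_assoc]
  rfl

theorem loc_rho_le {d : ℕ} (x : V d) : rho x ≤ ‖x‖ := by
  refine Real.sqrt_le_iff.2 ⟨norm_nonneg _, ?_⟩
  rw [loc_sum x]
  have := sq_nonneg ‖zp x‖
  linarith

theorem loc_zp_le {d : ℕ} (x : V d) : ‖zp x‖ ≤ ‖x‖ := by
  refine abs_le_of_sq_le_sq' ?_ (norm_nonneg _) |>.2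
  rw [loc_sum x]
  nlinarith [sq_nonneg (x 0), sq_nonneg (x 1)]

theorem loc_rho_tri {d : ℕ} (x y : V d) : rho y ≤ rho x + ‖y - x‖ := by
  have h1 := loc_rho_le (y - x)
  have h2 : rho y ≤ rho x + rho (y - x) := by
    have e1 : y 0 = x 0 + (y - x) 0 := by
      rw [PiLp.sub_apply]; ring
    have e2 : y 1 = x 1 + (y - x) 1 := by
      rw [PiLp.sub_apply]; ring
    unfold rho
    rw [e1, e2]
    generalize x 0 = a
    generalize x 1 = b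
    generalize (y - x) 0 = p
    generalize (y - x) 1 = q
    have ha := Real.sqrt_nonneg (a ^ 2 + b ^ 2)
    have hp := Real.sqrt_nonneg (p ^ 2 + q ^ 2)
    have ha2 : Real.sqrt (a ^ 2 + b ^ 2) ^ 2 = a ^ 2 + b ^ 2 := Real.sq_sqrt (by positivity)
    have hp2 : Real.sqrt (p ^ 2 + q ^ 2) ^ 2 = p ^ 2 + q ^ 2 := Real.sq_sqrt (by positivity)
    refine Real.sqrt_le_iff.2 ⟨add_nonneg ha hp, ?_⟩
    have h3 : a * p + b * q ≤ Real.sqrt (a ^ 2 + b ^ 2) * Real.sqrt (p ^ 2 + q ^ 2) := by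
      refine abs_le_of_sq_le_sq' ?_ (mul_nonneg ha hp) |>.2
      rw [mul_pow, ha2, hp2]
      nlinarith [sq_nonneg (a * q - b * p)]
    nlinarith
  linarith

theorem loc_zp_sub {d : ℕ} (x y : V d) (h : zp x = 0) : ‖zp y‖ ≤ ‖y - x‖ := by
  have h1 : zp (y - x) = zp y := by
    ext i
    have h2 : (zp x) i = 0 := by rw [h]; rfl
    have h3 : (zp (y - x)) i = (zp y) i - (zp x) i := rfl
    rw [h3, h2, sub_zero]
  rw [← h1]
  exact loc_zp_le _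

/-! ### Measurability -/

theorem loc_th_cont {d m : ℕ} (G : V d → V d →L[ℝ] E m)
    (h : ∀ r : ℝ, Continuous (fun x => (mu G).real (ball x r))) (s : ℝ) :
    Continuous (fun x => th G x s) := (h s).div_const _

/-! ### Transfer -/

theorem loc_zm_cont {d : ℕ} (c : V d) (r : ℝ) (g : V d ≃ₗᵢ[ℝ] V d) : Continuous (zm c r g) :=
  continuous_const.add (g.continuous.const_smul r)

theorem loc_tr {d : ℕ} (c : V d) (g : V d ≃ₗᵢ[ℝ] V d) (x₁ : V d) (ρ : ℝ)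
    (hb : ∀ (y : V d) (s : ℝ), zm c (1 / 2) g '' ball y s = ball (zm c (1 / 2) g y) (1 / 2 * s))
    (hv : ∀ (f : V d → ℝ≥0∞) (S : Set (V d)), Measurable f → MeasurableSet S →
      ∫⁻ y in S, f (zm c (1 / 2) g y) =
        ENNReal.ofReal (((1 / 2) ^ (d + 2))⁻¹) * ∫⁻ x in zm c (1 / 2) g '' S, f x)
    (f f' : V d → ℝ≥0∞) (P P' : V d → Prop) (hf : Measurable f) (hP : MeasurableSet {x | P x})
    (h1 : ∀ y ∈ ball x₁ ρ, f' y = f (zm c (1 / 2) g y))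
    (h2 : ∀ y ∈ ball x₁ ρ, (P' y ↔ P (zm c (1 / 2) g y))) :
    ∫⁻ y in {y : V d | y ∈ ball x₁ ρ ∧ P' y}, f' y =
      ENNReal.ofReal (((1 / 2) ^ (d + 2))⁻¹) *
        ∫⁻ x in {x : V d | x ∈ ball (zm c (1 / 2) g x₁) (1 / 2 * ρ) ∧ P x}, f x := by
  have hS : {y : V d | y ∈ ball x₁ ρ ∧ P' y} = ball x₁ ρ ∩ zm c (1 / 2) g ⁻¹' {x | P x} := by
    ext y
    constructor
    · rintro ⟨hy, hy2⟩
      exact ⟨hy, (h2 y hy).1 hy2⟩
    · rintro ⟨hy, hy2⟩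
      exact ⟨hy, (h2 y hy).2 hy2⟩
  have hm : MeasurableSet (ball x₁ ρ ∩ zm c (1 / 2) g ⁻¹' {x | P x}) :=
    measurableSet_ball.inter ((loc_zm_cont c (1 / 2) g).measurable hP)
  have hi : zm c (1 / 2) g '' (ball x₁ ρ ∩ zm c (1 / 2) g ⁻¹' {x | P x}) =
      {x : V d | x ∈ ball (zm c (1 / 2) g x₁) (1 / 2 * ρ) ∧ P x} := by
    rw [image_inter_preimage, hb]
    rfl
  rw [hS, ← hi, ← hv f _ hf hm]
  exact setLIntegral_congr_fun hm (fun y hy => h1 y hy.1)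

theorem loc_emp {d : ℕ} (c : V d) (g : V d ≃ₗᵢ[ℝ] V d) (x₁ : V d) (ρ : ℝ)
    (hb : ∀ (y : V d) (s : ℝ), zm c (1 / 2) g '' ball y s = ball (zm c (1 / 2) g y) (1 / 2 * s))
    (P P' : V d → Prop)
    (h2 : ∀ y ∈ ball x₁ ρ, (P' y ↔ P (zm c (1 / 2) g y)))
    (he : {y : V d | y ∈ ball x₁ ρ ∧ P' y} = ∅) :
    {x : V d | x ∈ ball (zm c (1 / 2) g x₁) (1 / 2 * ρ) ∧ P x} = ∅ := by
  rw [eq_empty_iff_forall_notMem]
  rintro x ⟨hx, hx2⟩
  rw [← hb] at hx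
  obtain ⟨y, hy, rfl⟩ := hx
  have : y ∈ {y : V d | y ∈ ball x₁ ρ ∧ P' y} := ⟨hy, (h2 y hy).2 hx2⟩
  rw [he] at this
  exact this

/-! ### Limits and constants -/

theorem loc_lim (a X Y : ℝ≥0∞) (c D : ℝ) (hc : 0 ≤ c) (hD : 0 ≤ D)
    (h : ∀ t : ℝ, 0 < t → a ≤ ENNReal.ofReal c * (X + ENNReal.ofReal D * (Y + ENNReal.ofReal t))) :
    a ≤ ENNReal.ofReal c * (X + ENNReal.ofReal D * Y) := by
  refine ENNReal.le_of_forall_pos_le_add ?_
  intro ε hε _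
  have hε' : (0 : ℝ) < ε := hε
  have hk : 0 < c * D + 1 := by positivity
  refine (h (ε / (c * D + 1)) (by positivity)).trans ?_
  rw [mul_add (ENNReal.ofReal D), ← add_assoc, mul_add (ENNReal.ofReal c) (X + _)]
  refine add_le_add le_rfl ?_
  rw [← ENNReal.ofReal_mul hD, ← ENNReal.ofReal_mul hc, ← ENNReal.ofReal_coe_nnreal]
  refine ENNReal.ofReal_le_ofReal ?_
  have h1 : c * (D * (ε / (c * D + 1))) = (c * D) * ε / (c * D + 1) := by ring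
  rw [h1, div_le_iff₀ hk]
  nlinarith

theorem loc_cst (A B T : ℝ≥0∞) (C W D : ℝ) (q : ℕ) (hC : 0 ≤ C) :
    ENNReal.ofReal (C * (1 / 2) ^ (q + 6)) *
      (A + B + ENNReal.ofReal D * (ENNReal.ofReal W * T)) ≤
    ENNReal.ofReal (C * max 1 W * (1 / 2) ^ q) * (A + B + ENNReal.ofReal D * T) := by
  have hM : (0 : ℝ) ≤ max 1 W := le_trans zero_le_one (le_max_left _ _)
  have h1 : ENNReal.ofReal (C * (1 / 2) ^ (q + 6)) * ENNReal.ofReal (max 1 W) ≤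
      ENNReal.ofReal (C * max 1 W * (1 / 2) ^ q) := by
    rw [← ENNReal.ofReal_mul (by positivity)]
    refine ENNReal.ofReal_le_ofReal ?_
    have h2 : ((1 : ℝ) / 2) ^ (q + 6) ≤ (1 / 2) ^ q :=
      pow_le_pow_of_le_one (by norm_num) (by norm_num) (by omega)
    have h3 : C * (1 / 2) ^ (q + 6) * max 1 W = C * max 1 W * (1 / 2) ^ (q + 6) := by ring
    rw [h3]
    exact mul_le_mul_of_nonneg_left h2 (by positivity)
  have h4 : (1 : ℝ≥0∞) ≤ ENNReal.ofReal (max 1 W) := by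
    rw [← ENNReal.ofReal_one]
    exact ENNReal.ofReal_le_ofReal (le_max_left _ _)
  have h5 : ENNReal.ofReal W ≤ ENNReal.ofReal (max 1 W) :=
    ENNReal.ofReal_le_ofReal (le_max_right _ _)
  have h6 : A + B + ENNReal.ofReal D * (ENNReal.ofReal W * T) ≤
      ENNReal.ofReal (max 1 W) * (A + B + ENNReal.ofReal D * T) := by
    rw [mul_add, mul_add]
    refine add_le_add (add_le_add ?_ ?_) ?_
    · exact le_mul_of_one_le_left bot_le h4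
    · exact le_mul_of_one_le_left bot_le h4
    · rw [← mul_assoc, mul_comm (ENNReal.ofReal D) (ENNReal.ofReal W), mul_assoc]
      exact mul_le_mul' h5 le_rfl
  calc _ ≤ ENNReal.ofReal (C * (1 / 2) ^ (q + 6)) *
        (ENNReal.ofReal (max 1 W) * (A + B + ENNReal.ofReal D * T)) := mul_le_mul' le_rfl h6
    _ = ENNReal.ofReal (C * (1 / 2) ^ (q + 6)) * ENNReal.ofReal (max 1 W) *
        (A + B + ENNReal.ofReal D * T) := by rw [mul_assoc]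
    _ ≤ _ := mul_le_mul' h1 le_rfl

/-- The square root of the second moment. -/
theorem loc_sq {d m : ℕ} (G : V d → V d →L[ℝ] E m) (x : V d) (v t : ℝ) (ht : 0 < t)
    (h : ENNReal.ofReal v ≤ bt G x (1 / 8) + ENNReal.ofReal (t ^ 2)) :
    ENNReal.ofReal (Real.sqrt v) ≤ bs G x (1 / 8) + ENNReal.ofReal t := by
  rcases le_or_gt v 0 with hv | hv
  · rw [Real.sqrt_eq_zero_of_nonpos hv]
    simp
  have h1 : ENNReal.ofReal (Real.sqrt v) = (ENNReal.ofReal v) ^ (1 / 2 : ℝ) := by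
    rw [Real.sqrt_eq_rpow, ENNReal.ofReal_rpow_of_nonneg hv.le (by norm_num)]
  have h2 : ENNReal.ofReal t = (ENNReal.ofReal (t ^ 2)) ^ (1 / 2 : ℝ) := by
    rw [ENNReal.ofReal_rpow_of_nonneg (by positivity) (by norm_num), ← Real.sqrt_eq_rpow,
      Real.sqrt_sq ht.le]
  rw [h1, h2]
  unfold bs
  exact (ENNReal.rpow_le_rpow h (by norm_num)).trans
    (ENNReal.rpow_add_le_add_rpow _ _ (by norm_num) (by norm_num))

/-- Averaging over the small ball. -/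
theorem loc_avg {d m : ℕ} (G : V d → V d →L[ℝ] E m) (x₀ : V d) (e S t : ℝ)
    (hbs : Measurable (fun x => bs G x (1 / 8)))
    (h1 : ∀ x ∈ ball x₀ (1 / 64), e ≤ th G x (1 / 8))
    (h2 : ∀ x ∈ ball x₀ (1 / 16), ENNReal.ofReal S ≤ bs G x (1 / 8) + ENNReal.ofReal t) :
    ENNReal.ofReal S ≤ ENNReal.ofReal ((volume (ball (0 : V d) (1 / 64)))⁻¹.toReal) *
      (∫⁻ x in {x : V d | x ∈ ball x₀ (1 / 16) ∧ e ≤ th G x (1 / 8)}, bs G x (1 / 8)) +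
      ENNReal.ofReal t := by
  have hw0 : volume (ball (0 : V d) (1 / 64)) ≠ 0 :=
    (measure_ball_pos volume (0 : V d) (by norm_num)).ne'
  have hw1 : volume (ball (0 : V d) (1 / 64)) ≠ ⊤ := measure_ball_lt_top.ne
  have hw2 : volume (ball x₀ (1 / 64)) = volume (ball (0 : V d) (1 / 64)) :=
    Measure.addHaar_ball_center volume x₀ (1 / 64)
  rw [ENNReal.ofReal_toReal (ENNReal.inv_ne_top.2 hw0)]
  have h3 : ENNReal.ofReal S * volume (ball (0 : V d) (1 / 64)) ≤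
      (∫⁻ x in {x : V d | x ∈ ball x₀ (1 / 16) ∧ e ≤ th G x (1 / 8)}, bs G x (1 / 8)) +
      ENNReal.ofReal t * volume (ball (0 : V d) (1 / 64)) := by
    rw [← hw2, ← setLIntegral_const, ← setLIntegral_const]
    calc ∫⁻ _ in ball x₀ (1 / 64), ENNReal.ofReal S
        ≤ ∫⁻ x in ball x₀ (1 / 64), (bs G x (1 / 8) + ENNReal.ofReal t) :=
          setLIntegral_mono' measurableSet_ball
            (fun x hx => h2 x (ball_subset_ball (by norm_num) hx))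
      _ = (∫⁻ x in ball x₀ (1 / 64), bs G x (1 / 8)) +
          ∫⁻ _ in ball x₀ (1 / 64), ENNReal.ofReal t := lintegral_add_left hbs _
      _ ≤ _ := by
          refine add_le_add (lintegral_mono_set ?_) le_rfl
          intro x hx
          exact ⟨ball_subset_ball (by norm_num) hx, h1 x hx⟩
  generalize (∫⁻ x in {x : V d | x ∈ ball x₀ (1 / 16) ∧ e ≤ th G x (1 / 8)}, bs G x (1 / 8)) = T
    at h3 ⊢
  generalize volume (ball (0 : V d) (1 / 64)) = w at h3 hw0 hw1 ⊢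
  calc ENNReal.ofReal S = w⁻¹ * (ENNReal.ofReal S * w) := by
        rw [mul_comm (ENNReal.ofReal S) w, ← mul_assoc, ENNReal.inv_mul_cancel hw0 hw1, one_mul]
    _ ≤ w⁻¹ * (T + ENNReal.ofReal t * w) := mul_le_mul' le_rfl h3
    _ = w⁻¹ * T + ENNReal.ofReal t := by
        rw [mul_add, mul_comm (ENNReal.ofReal t) w, ← mul_assoc w⁻¹ w,
          ENNReal.inv_mul_cancel hw0 hw1, one_mul]

theorem loc_scale (d : ℕ) (s : ℝ) (I : ℝ≥0∞) :
    ENNReal.ofReal ((s ^ 2)⁻¹) * (ENNReal.ofReal (((1 / 2) ^ (d + 2))⁻¹) * I) =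
      ENNReal.ofReal (2 ^ d) * (ENNReal.ofReal (((1 / 2 * s) ^ 2)⁻¹) * I) := by
  rw [← mul_assoc, ← mul_assoc, ← ENNReal.ofReal_mul (by positivity),
    ← ENNReal.ofReal_mul (by positivity)]
  congr 2
  have h1 : ((1 : ℝ) / 2) ^ (d + 2) = (2 ^ d)⁻¹ * (1 / 4) := by
    rw [pow_add, one_div, inv_pow]; norm_num
  rw [h1, mul_pow, mul_inv, mul_inv, inv_inv]
  norm_num
  ring

/-- What the zoom gives. -/
structure Zo {d m : ℕ} (G : V d → V d →L[ℝ] E m) (c : V d) (g : V d ≃ₗᵢ[ℝ] V d) (x₁ : V d) : Prop where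
  img : ∀ (y : V d) (s : ℝ), zm c (1 / 2) g '' ball y s = ball (zm c (1 / 2) g y) (1 / 2 * s)
  vol : ∀ (f : V d → ℝ≥0∞) (S : Set (V d)), Measurable f → MeasurableSet S →
      ∫⁻ y in S, f (zm c (1 / 2) g y) =
        ENNReal.ofReal (((1 / 2) ^ (d + 2))⁻¹) * ∫⁻ x in zm c (1 / 2) g '' S, f x
  th : ∀ (y : V d) (s : ℝ), 0 < s → ball y s ⊆ ball 0 2 →
      th (zG c (1 / 2) g G) y s = th G (zm c (1 / 2) g y) (1 / 2 * s)
  bs : ∀ (y : V d) (t : ℝ), 0 < t → ball y (8 * t) ⊆ ball 0 2 →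
      bs (zG c (1 / 2) g G) y t = bs G (zm c (1 / 2) g y) (1 / 2 * t)
  nx : ‖x₁‖ ≤ 5 / 32
  cth : ∀ s : ℝ, Measurable (fun x => Pool.Agent.H22.AN.th G x s)
  mbs : ∀ t : ℝ, 0 < t → Measurable (fun x => Pool.Agent.H22.AN.bs G x t)

theorem loc_ball {d : ℕ} {x₁ y : V d} {ρ s : ℝ} (h : ‖x₁‖ ≤ 5 / 32) (hy : y ∈ ball x₁ ρ)
    (hs : ρ + s ≤ 1) : ball y s ⊆ ball 0 2 := by
  intro z hz
  rw [mem_ball_zero_iff]
  rw [mem_ball, dist_eq_norm] at hy hz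
  have h1 : ‖z‖ ≤ ‖z - y‖ + ‖y - x₁‖ + ‖x₁‖ := by
    have := norm_add₃_le (a := z - y) (b := y - x₁) (c := x₁)
    simpa using this
  linarith

/-- Transfer of one term. -/
theorem loc_term {d m : ℕ} {G : V d → V d →L[ℝ] E m} {c : V d} {g : V d ≃ₗᵢ[ℝ] V d} {x₁ : V d}
    (hz : Zo G c g x₁) (e ρ s : ℝ) (hs : 0 < s) (h1 : ρ + 8 * s ≤ 1) :
    ENNReal.ofReal ((s ^ 2)⁻¹) *
      (∫⁻ y in {y : V d | y ∈ ball x₁ ρ ∧ e ≤ Pool.Agent.H22.AN.th (zG c (1 / 2) g G) y s},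
        Pool.Agent.H22.AN.bs (zG c (1 / 2) g G) y s) =
    ENNReal.ofReal (2 ^ d) * (ENNReal.ofReal (((1 / 2 * s) ^ 2)⁻¹) *
      (∫⁻ x in {x : V d | x ∈ ball (zm c (1 / 2) g x₁) (1 / 2 * ρ) ∧
          e ≤ Pool.Agent.H22.AN.th G x (1 / 2 * s)},
        Pool.Agent.H22.AN.bs G x (1 / 2 * s))) := by
  rw [loc_tr c g x₁ ρ hz.img hz.vol (fun x => Pool.Agent.H22.AN.bs G x (1 / 2 * s))
    (fun y => Pool.Agent.H22.AN.bs (zG c (1 / 2) g G) y s)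
    (fun x => e ≤ Pool.Agent.H22.AN.th G x (1 / 2 * s))
    (fun y => e ≤ Pool.Agent.H22.AN.th (zG c (1 / 2) g G) y s) (hz.mbs _ (by positivity))
    (measurableSet_le measurable_const (hz.cth _))
    (fun y hy => hz.bs y s hs (loc_ball hz.nx hy h1))
    (fun y hy => by rw [hz.th y s hs (loc_ball hz.nx hy (by linarith))])]
  exact loc_scale d s _

/-- Transfer of the term of the second inequality. -/
theorem loc_term2 {d m : ℕ} {G : V d → V d →L[ℝ] E m} {c : V d} {g : V d ≃ₗᵢ[ℝ] V d} {x₁ : V d}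
    (hz : Zo G c g x₁) (e w ρ s : ℝ) (hs : 0 < s) (h1 : ρ + 8 * s ≤ 1) :
    ENNReal.ofReal ((s ^ 2)⁻¹) *
      (∫⁻ y in {y : V d | y ∈ ball x₁ ρ ∧ e ≤ Pool.Agent.H22.AN.th (zG c (1 / 2) g G) y s ∧
          Pool.Agent.H22.AN.th (zG c (1 / 2) g G) y (s / 8) < w},
        ENNReal.ofReal (Real.sqrt (Pool.Agent.H22.AN.th (zG c (1 / 2) g G) y (s / 128)))) =
    ENNReal.ofReal (2 ^ d) * (ENNReal.ofReal (((1 / 2 * s) ^ 2)⁻¹) *
      (∫⁻ x in {x : V d | x ∈ ball (zm c (1 / 2) g x₁) (1 / 2 * ρ) ∧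
          e ≤ Pool.Agent.H22.AN.th G x (1 / 2 * s) ∧
          Pool.Agent.H22.AN.th G x (1 / 2 * s / 8) < w},
        ENNReal.ofReal (Real.sqrt (Pool.Agent.H22.AN.th G x (1 / 2 * s / 128))))) := by
  have e8 : 1 / 2 * s / 8 = 1 / 2 * (s / 8) := by ring
  have e128 : 1 / 2 * s / 128 = 1 / 2 * (s / 128) := by ring
  rw [e8, e128]
  rw [loc_tr c g x₁ ρ hz.img hz.vol
    (fun x => ENNReal.ofReal (Real.sqrt (Pool.Agent.H22.AN.th G x (1 / 2 * (s / 128)))))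
    (fun y => ENNReal.ofReal (Real.sqrt (Pool.Agent.H22.AN.th (zG c (1 / 2) g G) y (s / 128))))
    (fun x => e ≤ Pool.Agent.H22.AN.th G x (1 / 2 * s) ∧
      Pool.Agent.H22.AN.th G x (1 / 2 * (s / 8)) < w)
    (fun y => e ≤ Pool.Agent.H22.AN.th (zG c (1 / 2) g G) y s ∧
      Pool.Agent.H22.AN.th (zG c (1 / 2) g G) y (s / 8) < w)
    ((Real.continuous_sqrt.measurable.comp (hz.cth _)).ennreal_ofReal)
    ((measurableSet_le measurable_const (hz.cth _)).inter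
      (measurableSet_lt (hz.cth _) measurable_const))
    (fun y hy => by rw [hz.th y (s / 128) (by positivity) (loc_ball hz.nx hy (by linarith))])
    (fun y hy => by rw [hz.th y s hs (loc_ball hz.nx hy (by linarith)),
      hz.th y (s / 8) (by positivity) (loc_ball hz.nx hy (by linarith))])]
  exact loc_scale d s _

/-- The empty case. -/
theorem loc_emp2 {d m : ℕ} {G : V d → V d →L[ℝ] E m} {c : V d} {g : V d ≃ₗᵢ[ℝ] V d} {x₁ : V d}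
    (hz : Zo G c g x₁) (e ρ s : ℝ) (hs : 0 < s) (h1 : ρ + 8 * s ≤ 1)
    (he : {y : V d | y ∈ ball x₁ ρ ∧ e ≤ Pool.Agent.H22.AN.th (zG c (1 / 2) g G) y s} = ∅) :
    {x : V d | x ∈ ball (zm c (1 / 2) g x₁) (1 / 2 * ρ) ∧
          e ≤ Pool.Agent.H22.AN.th G x (1 / 2 * s)} = ∅ :=
  loc_emp c g x₁ ρ hz.img (fun x => e ≤ Pool.Agent.H22.AN.th G x (1 / 2 * s))
    (fun y => e ≤ Pool.Agent.H22.AN.th (zG c (1 / 2) g G) y s)
    (fun y hy => by rw [hz.th y s hs (loc_ball hz.nx hy (by linarith))]) he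

/-- Transfer of the right side. -/
theorem loc_R1 {d m : ℕ} {G : V d → V d →L[ℝ] E m} {c : V d} {g : V d ≃ₗᵢ[ℝ] V d} {x₁ : V d}
    (hz : Zo G c g x₁) (e C : ℝ) (q r : ℕ) (hr : 8 ≤ r) :
    R1 (zG c (1 / 2) g G) e C q r x₁ = ENNReal.ofReal (2 ^ d) *
      (ENNReal.ofReal (C * (1 / 2) ^ q) * (
        ENNReal.ofReal ((((1 / 2) ^ ((8 * d + 6) * q) * (1 / 2) ^ (r + 1)) ^ 2)⁻¹) *
          (∫⁻ x in {x : V d | x ∈ ball (zm c (1 / 2) g x₁) ((1 / 2) ^ (r + 1)) ∧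
            e ≤ Pool.Agent.H22.AN.th G x ((1 / 2) ^ ((8 * d + 6) * q) * (1 / 2) ^ (r + 1))},
            Pool.Agent.H22.AN.bs G x ((1 / 2) ^ ((8 * d + 6) * q) * (1 / 2) ^ (r + 1))) +
        ENNReal.ofReal ((((1 / 2) ^ (r + 1)) ^ 2)⁻¹) *
          (∫⁻ x in {x : V d | x ∈ ball (zm c (1 / 2) g x₁) ((1 / 2) ^ (r + 1)) ∧
            e ≤ Pool.Agent.H22.AN.th G x ((1 / 2) ^ (r + 1))},
            Pool.Agent.H22.AN.bs G x ((1 / 2) ^ (r + 1))) +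
        ENNReal.ofReal (((1 / 2) ^ (r + 1)) ^ d) *
          ENNReal.ofReal (Real.sqrt (V2 (zG c (1 / 2) g G) 1)))) := by
  have hR : (0 : ℝ) < (1 / 2) ^ r := by positivity
  have hR8 : ((1 : ℝ) / 2) ^ r ≤ 1 / 256 := by
    have h1 : ((1 : ℝ) / 2) ^ r ≤ (1 / 2) ^ 8 :=
      pow_le_pow_of_le_one (by norm_num) (by norm_num) hr
    norm_num at h1 ⊢
    exact h1
  have hR1 : ((1 : ℝ) / 2) ^ (r + 1) = 1 / 2 * (1 / 2) ^ r := by rw [pow_succ]; ring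
  have hh0 : (0 : ℝ) < (1 / 2) ^ ((8 * d + 6) * q) := by positivity
  have hh1 : ((1 : ℝ) / 2) ^ ((8 * d + 6) * q) ≤ 1 := pow_le_one₀ (by norm_num) (by norm_num)
  unfold R1 hhq
  rw [hR1]
  generalize ((1 : ℝ) / 2) ^ r = R at *
  generalize ((1 : ℝ) / 2) ^ ((8 * d + 6) * q) = h at *
  have hhR : h * R ≤ R := by nlinarith
  have e1 : h * (1 / 2 * R) = 1 / 2 * (h * R) := by ring
  rw [e1, loc_term hz e R (h * R) (by positivity) (by linarith), loc_term hz e R R hR (by linarith)]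
  have e2 : ENNReal.ofReal (R ^ d * Real.sqrt (V2 (zG c (1 / 2) g G) 1)) =
      ENNReal.ofReal (2 ^ d) * (ENNReal.ofReal ((1 / 2 * R) ^ d) *
        ENNReal.ofReal (Real.sqrt (V2 (zG c (1 / 2) g G) 1))) := by
    rw [← mul_assoc, ← ENNReal.ofReal_mul (by positivity), ← ENNReal.ofReal_mul (by positivity)]
    congr 2
    rw [← mul_pow]
    congr 1
    ring
  rw [e2]
  ring

theorem loc_cancel (d : ℕ) (A B : ℝ≥0∞)
    (h : ENNReal.ofReal (2 ^ d) * A ≤ ENNReal.ofReal (2 ^ d) * B) : A ≤ B := by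
  have h0 : ENNReal.ofReal (2 ^ d) ≠ 0 := by
    rw [Ne, ENNReal.ofReal_eq_zero, not_le]
    positivity
  have h1 := mul_le_mul' (le_refl (ENNReal.ofReal (2 ^ d))⁻¹) h
  rwa [← mul_assoc, ← mul_assoc, ENNReal.inv_mul_cancel h0 ENNReal.ofReal_ne_top, one_mul,
    one_mul] at h1

/-- The zoom of the frame. -/
theorem loc_zo (hZMU : T_ZMU) (hMUF : T_MUF) (hBTM : T_BTM) {d m : ℕ} {G : V d → V d →L[ℝ] E m}
    (hmem : MemLp G 2 (volume.restrict (ball (0 : V d) 2))) {c : V d} {g : V d ≃ₗᵢ[ℝ] V d}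
    {x₀ x₁ : V d} (hc : ‖c‖ ≤ 1 / 16) (hx : x₀ = zm c (1 / 2) g x₁) (hx₀ : ‖x₀‖ < 1 / 64) :
    Zo G c g x₁ := by
  obtain ⟨-, -, hvol, himg, hth, hbt⟩ := hZMU d m G c (1 / 2) g hmem (by norm_num) (by
    intro z hz
    rw [mem_ball_zero_iff]
    rw [mem_ball, dist_eq_norm] at hz
    have h1 : ‖z‖ ≤ ‖z - c‖ + ‖c‖ := by
      have := norm_add_le (z - c) c
      simpa using this
    linarith)
  obtain ⟨-, -, -, -, -, hcont⟩ := hMUF d m G hmem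
  refine ⟨himg, hvol, hth, fun y t ht hb => (hbt y t ht hb).2, ?_,
    fun s => (loc_th_cont G hcont s).measurable, fun t ht => (hBTM d m G hmem t ht).2⟩
  have h1 : (1 / 2 : ℝ) • g x₁ = x₀ - c := by
    rw [hx]; unfold zm; abel
  have h2 : ‖(1 / 2 : ℝ) • g x₁‖ = 1 / 2 * ‖x₁‖ := by
    rw [norm_smul, g.norm_map]; norm_num
  have h3 := norm_sub_le x₀ c
  rw [← h1, h2] at h3
  linarith

theorem pf_LOC (hFR1 : T_FR1) (hLC1 : T_LC1) (hZMU : T_ZMU) (hMUF : T_MUF) (hBTM : T_BTM) :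
    Pool.Agent.H22.AN.T_LOC := by
  intro d m L Λ ε er e e₀ hd hL hΛ hε her hEP he hele he₀
  obtain ⟨C₁, hC₁, hC⟩ := hLC1 d m L Λ ε er e e₀ hd hL hΛ hε her hEP he hele he₀
  refine ⟨C₁ * max 1 ((volume (ball (0 : V d) (1 / 64)))⁻¹.toReal),
    mul_nonneg hC₁ (le_trans zero_le_one (le_max_left _ _)), ?_⟩
  intro q
  obtain ⟨r1, r₁, δ, v, hr1, hr₁, hδ, hv, hmain⟩ := hC (q + 6) (by omega)
  obtain ⟨K, om, hom, hF⟩ := hFR1 d m L Λ ε e₀ r₁ δ v hd hL hΛ hε he₀ hr₁ hδ hv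
  refine ⟨2 * (q + 6), (8 * d + 6) * (q + 6), r1 + 1, K, om, by omega,
    Nat.mul_lt_mul_of_pos_right (by omega) (by omega), by omega, hom, ?_⟩
  intro U u G hSM x₀ hFr
  have hmem := hSM.gd.memG
  have hbsm : Measurable (fun x => Pool.Agent.H22.AN.bs G x (1 / 8)) :=
    (hBTM d m G hmem (1 / 8) (by norm_num)).2
  have hR : (0 : ℝ) < (1 / 2) ^ r1 := by positivity
  have hR8 : ((1 : ℝ) / 2) ^ r1 ≤ 1 / 256 := by
    have h1 : ((1 : ℝ) / 2) ^ r1 ≤ (1 / 2) ^ 8 :=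
      pow_le_pow_of_le_one (by norm_num) (by norm_num) hr1
    norm_num at h1 ⊢
    exact h1
  have hR1 : ((1 : ℝ) / 2) ^ (r1 + 1) = 1 / 2 * (1 / 2) ^ r1 := by rw [pow_succ]; ring
  have hs0 : (0 : ℝ) < (1 / 2) ^ (2 * (q + 6)) := by positivity
  have hs1 : ((1 : ℝ) / 2) ^ (2 * (q + 6)) ≤ 1 := pow_le_one₀ (by norm_num) (by norm_num)
  have hD : (0 : ℝ) ≤ ((1 / 2) ^ (r1 + 1)) ^ d := by positivity
  -- the step for every `t`
  have step : ∀ t : ℝ, 0 < t →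
      (ENNReal.ofReal ((((1 / 2) ^ (2 * (q + 6)) * (1 / 2) ^ (r1 + 1)) ^ 2)⁻¹) *
      (∫⁻ x in {x : V d | x ∈ ball x₀ ((1 / 2) ^ (r1 + 1) / 256) ∧
          e₀ ≤ Pool.Agent.H22.AN.th G x ((1 / 2) ^ (2 * (q + 6)) * (1 / 2) ^ (r1 + 1))},
        Pool.Agent.H22.AN.bs G x ((1 / 2) ^ (2 * (q + 6)) * (1 / 2) ^ (r1 + 1))) ≤
      ENNReal.ofReal (C₁ * (1 / 2) ^ (q + 6)) * (
        ENNReal.ofReal ((((1 / 2) ^ ((8 * d + 6) * (q + 6)) * (1 / 2) ^ (r1 + 1)) ^ 2)⁻¹) *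
          (∫⁻ x in {x : V d | x ∈ ball x₀ ((1 / 2) ^ (r1 + 1)) ∧
            e ≤ Pool.Agent.H22.AN.th G x ((1 / 2) ^ ((8 * d + 6) * (q + 6)) * (1 / 2) ^ (r1 + 1))},
            Pool.Agent.H22.AN.bs G x ((1 / 2) ^ ((8 * d + 6) * (q + 6)) * (1 / 2) ^ (r1 + 1))) +
        ENNReal.ofReal ((((1 / 2) ^ (r1 + 1)) ^ 2)⁻¹) *
          (∫⁻ x in {x : V d | x ∈ ball x₀ ((1 / 2) ^ (r1 + 1)) ∧
            e ≤ Pool.Agent.H22.AN.th G x ((1 / 2) ^ (r1 + 1))},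
            Pool.Agent.H22.AN.bs G x ((1 / 2) ^ (r1 + 1))) +
        ENNReal.ofReal (((1 / 2) ^ (r1 + 1)) ^ d) *
          (ENNReal.ofReal ((volume (ball (0 : V d) (1 / 64)))⁻¹.toReal) *
            (∫⁻ x in {x : V d | x ∈ ball x₀ (1 / 16) ∧ e ≤ Pool.Agent.H22.AN.th G x (1 / 8)},
              Pool.Agent.H22.AN.bs G x (1 / 8)) + ENNReal.ofReal t))) ∧
      (ENNReal.ofReal ((((1 / 2) ^ (2 * (q + 6)) * (1 / 2) ^ (r1 + 1)) ^ 2)⁻¹) *
      (∫⁻ x in {x : V d | x ∈ ball x₀ ((1 / 2) ^ (r1 + 1) / 256) ∧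
          e₀ ≤ Pool.Agent.H22.AN.th G x ((1 / 2) ^ (2 * (q + 6)) * (1 / 2) ^ (r1 + 1)) ∧
          Pool.Agent.H22.AN.th G x ((1 / 2) ^ (2 * (q + 6)) * (1 / 2) ^ (r1 + 1) / 8) < 2 * er},
        ENNReal.ofReal (Real.sqrt
          (Pool.Agent.H22.AN.th G x ((1 / 2) ^ (2 * (q + 6)) * (1 / 2) ^ (r1 + 1) / 128)))) ≤
      ENNReal.ofReal (C₁ * (1 / 2) ^ (q + 6)) * (
        ENNReal.ofReal ((((1 / 2) ^ ((8 * d + 6) * (q + 6)) * (1 / 2) ^ (r1 + 1)) ^ 2)⁻¹) *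
          (∫⁻ x in {x : V d | x ∈ ball x₀ ((1 / 2) ^ (r1 + 1)) ∧
            e ≤ Pool.Agent.H22.AN.th G x ((1 / 2) ^ ((8 * d + 6) * (q + 6)) * (1 / 2) ^ (r1 + 1))},
            Pool.Agent.H22.AN.bs G x ((1 / 2) ^ ((8 * d + 6) * (q + 6)) * (1 / 2) ^ (r1 + 1))) +
        ENNReal.ofReal ((((1 / 2) ^ (r1 + 1)) ^ 2)⁻¹) *
          (∫⁻ x in {x : V d | x ∈ ball x₀ ((1 / 2) ^ (r1 + 1)) ∧
            e ≤ Pool.Agent.H22.AN.th G x ((1 / 2) ^ (r1 + 1))},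
            Pool.Agent.H22.AN.bs G x ((1 / 2) ^ (r1 + 1))) +
        ENNReal.ofReal (((1 / 2) ^ (r1 + 1)) ^ d) *
          (ENNReal.ofReal ((volume (ball (0 : V d) (1 / 64)))⁻¹.toReal) *
            (∫⁻ x in {x : V d | x ∈ ball x₀ (1 / 16) ∧ e ≤ Pool.Agent.H22.AN.th G x (1 / 8)},
              Pool.Agent.H22.AN.bs G x (1 / 8)) + ENNReal.ofReal t))) := by
    intro t ht
    obtain ⟨c, g, x₁, hc, hx0, hF1, hV⟩ := hF U u G hSM x₀ hFr (t ^ 2) (by positivity)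
    have hz : Zo G c g x₁ := loc_zo hZMU hMUF hBTM hmem hc hx0 hFr.x0
    have e1 : ((1 : ℝ) / 2) ^ (2 * (q + 6)) * (1 / 2) ^ (r1 + 1) =
        1 / 2 * (shq (q + 6) * (1 / 2) ^ r1) := by
      unfold shq; rw [hR1]; ring
    have e2 : ((1 : ℝ) / 2) ^ (r1 + 1) / 256 = 1 / 2 * ((1 / 2) ^ r1 / 256) := by
      rw [hR1]; ring
    have hs : (0 : ℝ) < shq (q + 6) * (1 / 2) ^ r1 := by unfold shq; positivity
    have hs' : shq (q + 6) * (1 / 2) ^ r1 ≤ (1 / 2) ^ r1 := by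
      unfold shq; exact mul_le_of_le_one_left hR.le hs1
    have hsm : (1 / 2 : ℝ) ^ r1 / 256 + 8 * (shq (q + 6) * (1 / 2) ^ r1) ≤ 1 := by linarith
    rcases hmain _ _ _ x₁ hF1 with hemp | ⟨hrho, h14, hI, hII⟩
    · have h1 := loc_emp2 hz e₀ ((1 / 2) ^ r1 / 256) (shq (q + 6) * (1 / 2) ^ r1) hs hsm hemp
      rw [← hx0, ← e1, ← e2] at h1
      have h2 : {x : V d | x ∈ ball x₀ ((1 / 2) ^ (r1 + 1) / 256) ∧
          e₀ ≤ Pool.Agent.H22.AN.th G x ((1 / 2) ^ (2 * (q + 6)) * (1 / 2) ^ (r1 + 1)) ∧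
          Pool.Agent.H22.AN.th G x ((1 / 2) ^ (2 * (q + 6)) * (1 / 2) ^ (r1 + 1) / 8) <
            2 * er} = ∅ := by
        rw [eq_empty_iff_forall_notMem] at h1 ⊢
        rintro x ⟨hx, hx2, -⟩
        exact h1 x ⟨hx, hx2⟩
      rw [h1, h2]
      simp
    · have hS := loc_avg G x₀ e (Real.sqrt (V2 (zG c (1 / 2) g G) 1)) t hbsm (by
        intro x hx
        have hx' : x ∈ ball (zm c (1 / 2) g x₁) (1 / 2 * (1 / 32)) := by
          rw [← hx0]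
          have e3 : (1 : ℝ) / 2 * (1 / 32) = 1 / 64 := by norm_num
          rw [e3]; exact hx
        rw [← hz.img] at hx'
        obtain ⟨y, hy, rfl⟩ := hx'
        have hy' : ‖y - x₁‖ < 1 / 32 := by
          rw [mem_ball, dist_eq_norm] at hy; exact hy
        have h3 := loc_rho_tri x₁ y
        have h4 := loc_zp_sub x₁ y hF1.zx
        have h5 := h14 y (by linarith) (by linarith)
        rw [hz.th y (1 / 4) (by norm_num) (loc_ball hz.nx hy (by norm_num))] at h5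
        have e4 : (1 : ℝ) / 2 * (1 / 4) = 1 / 8 := by norm_num
        rw [e4] at h5
        linarith) (fun x hx => loc_sq G x _ t ht (hV x hx))
      rw [loc_R1 hz e C₁ (q + 6) r1 hr1] at hI hII
      rw [loc_term hz e₀ ((1 / 2) ^ r1 / 256) _ hs hsm] at hI
      rw [loc_term2 hz e₀ (2 * er) ((1 / 2) ^ r1 / 256) _ hs hsm] at hII
      have hI' := loc_cancel d _ _ hI
      have hII' := loc_cancel d _ _ hII
      rw [← hx0, ← e1, ← e2] at hI' hII'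
      have hfin := fun (A B : ℝ≥0∞) => mul_le_mul' (le_refl (ENNReal.ofReal (C₁ * (1 / 2) ^ (q + 6))))
        (add_le_add (le_refl (A + B))
          (mul_le_mul' (le_refl (ENNReal.ofReal (((1 / 2) ^ (r1 + 1)) ^ d))) hS))
      exact ⟨hI'.trans (hfin _ _), hII'.trans (hfin _ _)⟩
  have hcc : (0 : ℝ) ≤ C₁ * (1 / 2) ^ (q + 6) := by positivity
  constructor
  · refine (loc_lim _ _ _ _ _ hcc hD (fun t ht => (step t ht).1)).trans ?_
    exact loc_cst _ _ _ C₁ _ _ q hC₁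
  · refine (loc_lim _ _ _ _ _ hcc hD (fun t ht => (step t ht).2)).trans ?_
    exact loc_cst _ _ _ C₁ _ _ q hC₁

end

end Pool.Agent.H99.AN
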